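import Mathlib

namespace Pool.Agent.H.MP_3020f5_gt
open Set Topology Filter unitInterval

structure Data (M : Type*) [MetricSpace M] where
  o : M
  sc : ℝ → M → M
  Ps : M → ℝ → M
  h1 : ∀ c, 0 < c → ∀ a a', dist (sc c a) (sc c a') ≤ max 1 c * dist a a'
  h2 : ∀ c, 0 < c → sc c o = o
  h3 : ∀ c c', 0 < c → 0 < c' → ∀ a, sc c (sc c' a) = sc (c * c') a
  h3' : ∀ a, sc 1 a = a
  h4 : ∀ a ε, 0 < ε → ∃ D, 0 < D ∧ (∀ c, 0 < c → dist (sc c a) o ≤ ε + c * D) ∧
    ∀ c c', 0 < c → 0 < c' → dist (sc c a) (sc c' a) ≤ ε + |c - c'| * D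
  h5 : ∀ a a' b b', dist (Ps a b) (Ps a' b') ≤ dist a a' + |b - b'|
  h6 : ∀ c, 0 < c → ∀ a b, sc c (Ps a b) = Ps (sc c a) (c * b)
  h7 : ∀ a, Ps a 0 = a
  h8 : ∀ a b, dist a o ≤ dist (Ps a b) o
  h9 : Ps o 1 ≠ o

namespace Data
variable {M : Type*} [MetricSpace M] (d : Data M)

theorem sc_ne {c : ℝ} (hc : 0 < c) {a : M} (ha : a ≠ d.o) : d.sc c a ≠ d.o := by
  intro h
  apply ha
  have := d.h3 c⁻¹ c (inv_pos.2 hc) hc a
  rw [h, d.h2 _ (inv_pos.2 hc), inv_mul_cancel₀ hc.ne', d.h3'] at this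
  exact this.symm

theorem Ps_ne {a : M} (ha : a ≠ d.o) (b : ℝ) : d.Ps a b ≠ d.o := by
  intro h
  have := d.h8 a b
  rw [h, dist_self] at this
  exact ha (dist_le_zero.1 this)

theorem Ps_cont : Continuous fun p : M × ℝ => d.Ps p.1 p.2 := by
  rw [Metric.continuous_iff]
  intro p ε hε
  refine ⟨ε / 2, half_pos hε, fun q hq => lt_of_le_of_lt (d.h5 _ _ _ _) ?_⟩
  rw [Prod.dist_eq, max_lt_iff, Real.dist_eq] at hq
  linarith [hq.1, hq.2]

noncomputable def tm (α : ℝ) (a : M) (r : ℝ) : ℝ := r * max (dist (d.sc r⁻¹ a) d.o - α) 0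

noncomputable def s (α : ℝ) (a : M) : ℝ := sSup (d.tm α a '' Ioi 0)

theorem exR (α : ℝ) (hα : 0 < α) (a : M) : ∃ R, 1 ≤ R ∧ ∀ r, R < r → dist (d.sc r⁻¹ a) d.o < α := by
  obtain ⟨D, hD, h, -⟩ := d.h4 a (α / 2) (half_pos hα)
  refine ⟨max 1 (2 * D / α), le_max_left _ _, fun r hr => ?_⟩
  rw [max_lt_iff] at hr
  have hr0 : 0 < r := by linarith [hr.1]
  have := h r⁻¹ (inv_pos.2 hr0)
  have h2 : r⁻¹ * D < α / 2 := by
    rw [inv_mul_lt_iff₀ hr0]
    have := hr.2
    rw [div_lt_iff₀ hα] at this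
    linarith
  linarith

theorem rmul {r R : ℝ} (hr : 0 < r) (hR : 1 ≤ R) (hrR : r ≤ R) (a a' : M) :
    r * dist (d.sc r⁻¹ a) (d.sc r⁻¹ a') ≤ R * dist a a' := by
  have := mul_le_mul_of_nonneg_left (d.h1 r⁻¹ (inv_pos.2 hr) a a') hr.le
  refine this.trans ?_
  rw [← mul_assoc, mul_max_of_nonneg _ _ hr.le, mul_one, mul_inv_cancel₀ hr.ne']
  exact mul_le_mul_of_nonneg_right (max_le hrR hR) dist_nonneg

theorem tm_zero {α : ℝ} {a : M} {r : ℝ} (h : dist (d.sc r⁻¹ a) d.o < α) : d.tm α a r = 0 := by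
  unfold tm; rw [max_eq_right (by linarith), mul_zero]

theorem bdd {α : ℝ} (hα : 0 < α) (a : M) : BddAbove (d.tm α a '' Ioi 0) := by
  obtain ⟨R, hR, h⟩ := d.exR α hα a
  refine ⟨R * dist a d.o, ?_⟩
  rintro _ ⟨r, hr, rfl⟩
  rcases lt_or_ge R r with h' | h'
  · rw [d.tm_zero (h r h')]; positivity
  · have := d.rmul hr hR h' a d.o
    rw [d.h2 _ (inv_pos.2 hr)] at this
    refine le_trans ?_ this
    exact mul_le_mul_of_nonneg_left (max_le (by linarith) dist_nonneg) (le_of_lt hr)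

theorem le_s {α : ℝ} (hα : 0 < α) (a : M) {r : ℝ} (hr : 0 < r) : d.tm α a r ≤ d.s α a :=
  le_csSup (d.bdd hα a) ⟨r, hr, rfl⟩

theorem s_le {α : ℝ} {a : M} {x : ℝ} (h : ∀ r, 0 < r → d.tm α a r ≤ x) : d.s α a ≤ x :=
  csSup_le ⟨_, 1, by simp, rfl⟩ (by rintro _ ⟨r, hr, rfl⟩; exact h r hr)

theorem s_lb {α : ℝ} (hα : 0 < α) (a : M) : dist a d.o - α ≤ d.s α a := by
  have := d.le_s hα a one_pos
  unfold tm at this
  rw [inv_one, d.h3', one_mul] at this
  exact (le_max_left _ _).trans this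

theorem s_nonneg {α : ℝ} (hα : 0 < α) (a : M) : 0 ≤ d.s α a :=
  le_trans (mul_nonneg zero_le_one (le_max_right _ _)) (d.le_s hα a one_pos)

theorem s_sc_le {α : ℝ} (hα : 0 < α) {c : ℝ} (hc : 0 < c) (a : M) :
    d.s α (d.sc c a) ≤ c * d.s α a := by
  apply d.s_le
  intro r hr
  have := d.le_s hα a (div_pos hr hc)
  have e : d.tm α (d.sc c a) r = c * d.tm α a (r / c) := by
    unfold tm
    rw [d.h3 _ _ (inv_pos.2 hr) hc, inv_div, ← mul_assoc, mul_div_cancel₀ _ hc.ne',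
      div_eq_inv_mul]
  rw [e]
  exact mul_le_mul_of_nonneg_left this hc.le

theorem s_sc {α : ℝ} (hα : 0 < α) {c : ℝ} (hc : 0 < c) (a : M) :
    d.s α (d.sc c a) = c * d.s α a := by
  refine le_antisymm (d.s_sc_le hα hc a) ?_
  have := d.s_sc_le hα (inv_pos.2 hc) (d.sc c a)
  rw [d.h3 _ _ (inv_pos.2 hc) hc, inv_mul_cancel₀ hc.ne', d.h3'] at this
  rwa [← le_inv_mul_iff₀ hc]

theorem s_lip {α α' R : ℝ} (hα' : 0 < α') (hR : 1 ≤ R) (a a' : M)
    (h : ∀ r, R < r → dist (d.sc r⁻¹ a) d.o < α) :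
    d.s α a ≤ d.s α' a' + R * (dist a a' + |α - α'|) := by
  apply d.s_le
  intro r hr
  rcases lt_or_ge R r with h' | h'
  · rw [d.tm_zero (h r h')]
    have := d.s_nonneg hα' a'
    positivity
  · have h1 := d.le_s hα' a' hr
    have h2 := d.rmul hr hR h' a a'
    have h3 := dist_triangle (d.sc r⁻¹ a) (d.sc r⁻¹ a') d.o
    have h4 : max (dist (d.sc r⁻¹ a) d.o - α) 0 ≤ max (dist (d.sc r⁻¹ a') d.o - α') 0 +
        (dist (d.sc r⁻¹ a) (d.sc r⁻¹ a') + |α - α'|) := by
      apply max_le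
      · linarith [le_max_left (dist (d.sc r⁻¹ a') d.o - α') 0, neg_le_abs (α - α')]
      · have := le_max_right (dist (d.sc r⁻¹ a') d.o - α') 0
        positivity
    have h5 := mul_le_mul_of_nonneg_left h4 hr.le
    have h6 := mul_le_mul_of_nonneg_right h' (abs_nonneg (α - α'))
    unfold tm at h1 ⊢
    nlinarith

theorem s_cont {α : ℝ} (hα : 0 < α) (a : M) :
    ContinuousAt (fun p : ℝ × M => d.s p.1 p.2) (α, a) := by
  obtain ⟨R, hR, h⟩ := d.exR (α / 4) (by positivity) a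
  rw [Metric.continuousAt_iff]
  intro ε hε
  refine ⟨min (α / 4) (ε / (2 * R)), by positivity, ?_⟩
  rintro ⟨β, b⟩ hq
  rw [Prod.dist_eq, max_lt_iff, lt_min_iff, lt_min_iff, Real.dist_eq] at hq
  obtain ⟨⟨q1, q2⟩, q3, q4⟩ := hq
  simp only at q1 q2 q3 q4
  have hβ : α / 2 < β := by linarith [(abs_lt.1 q1).1]
  have e1 := d.s_lip (α := β) hα hR b a (fun r hr => by
    have hr0 : 0 < r := by linarith
    have t1 := dist_triangle (d.sc r⁻¹ b) (d.sc r⁻¹ a) d.o
    have t2 := d.h1 r⁻¹ (inv_pos.2 hr0) b a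
    rw [max_eq_left (inv_le_one_of_one_le₀ (by linarith)), one_mul] at t2
    linarith [h r hr])
  have e2 := d.s_lip (α := α) (α' := β) (by linarith) hR a b (fun r hr => by linarith [h r hr])
  rw [dist_comm a b, abs_sub_comm] at e2
  have hR0 : 0 < 2 * R := by linarith
  rw [lt_div_iff₀ hR0] at q2 q4
  rw [Real.dist_eq, abs_lt]
  simp only
  constructor <;> nlinarith

noncomputable def b (t : ℝ) (a : M) : ℝ := (1 - t) * d.s t a / t

theorem contr (r : {a // a ≠ d.o} → {a // a ≠ d.o} → Prop)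
    (hr : ∀ a a', r a a' ↔ ∃ c, 0 < c ∧ a'.1 = d.sc c a.1) : ContractibleSpace (Quot r) := by
  classical
  let y0 : Quot r := Quot.mk r ⟨d.Ps d.o 1, d.h9⟩
  let L : M → Quot r := fun m => if h : m ≠ d.o then Quot.mk r ⟨m, h⟩ else y0
  have hL : ∀ m (h : m ≠ d.o), L m = Quot.mk r ⟨m, h⟩ := fun m h => dif_pos h
  have hLc : ∀ m, m ≠ d.o → ContinuousAt L m := by
    intro m hm
    have : ContinuousOn L {m | m ≠ d.o} := by
      rw [continuousOn_iff_continuous_restrict]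
      have e : Set.domRestrict {m | m ≠ d.o} L = fun x => Quot.mk r ⟨x.1, x.2⟩ := by
        funext x; exact hL _ x.2
      rw [e]
      exact continuous_quot_mk
    exact this.continuousAt (isOpen_ne.mem_nhds hm)
  have hLsc : ∀ c, 0 < c → ∀ m, m ≠ d.o → L (d.sc c m) = L m := by
    intro c hc m hm
    rw [hL _ hm, hL _ (d.sc_ne hc hm)]
    exact (Quot.sound ((hr _ _).2 ⟨c, hc, rfl⟩)).symm
  let Ht : I → {a // a ≠ d.o} → Quot r := fun t a =>
    if (t : ℝ) = 0 then y0 else L (d.Ps a.1 (d.b t a.1))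
  have hinv : ∀ t a a', r a a' → Ht t a = Ht t a' := by
    intro t a a' h
    obtain ⟨c, hc, e⟩ := (hr _ _).1 h
    simp only [Ht]
    split_ifs with ht
    · rfl
    · have ht0 : (0 : ℝ) < t := lt_of_le_of_ne t.2.1 (Ne.symm ht)
      have : d.b t a'.1 = c * d.b t a.1 := by
        unfold b; rw [e, d.s_sc ht0 hc]; ring
      rw [this, e, ← d.h6 c hc, hLsc c hc _ (d.Ps_ne a.2 _)]
  have hcont : Continuous fun p : I × {a // a ≠ d.o} => Ht p.1 p.2 := by
    rw [continuous_iff_continuousAt]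
    rintro ⟨t0, a0⟩
    have c1 : Continuous fun p : I × {a // a ≠ d.o} => (p.1 : ℝ) := by fun_prop
    have c2 : Continuous fun p : I × {a // a ≠ d.o} => (p.2 : M) := by fun_prop
    by_cases ht : (t0 : ℝ) = 0
    · let K : I × {a // a ≠ d.o} → M := fun p =>
        if (p.1 : ℝ) = 0 then d.Ps d.o 1 else d.Ps (d.sc (d.b p.1 p.2.1)⁻¹ p.2.1) 1
      have hg : 0 < dist a0.1 d.o := dist_pos.2 a0.2
      set g := dist a0.1 d.o with hgd
      have hb : ∀ N : ℝ, 0 < N → ∀ᶠ p : I × {a // a ≠ d.o} in 𝓝 (t0, a0),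
          (p.1 : ℝ) ≠ 0 → N ≤ d.b p.1 p.2.1 := by
        intro N hN
        have e1 : ∀ᶠ p : I × {a // a ≠ d.o} in 𝓝 (t0, a0),
            (p.1 : ℝ) < min (1 / 2) (min (g / 4) (g / (8 * N))) := by
          apply c1.continuousAt.eventually (gt_mem_nhds _)
          simp only [ht]; positivity
        have e2 : ∀ᶠ p : I × {a // a ≠ d.o} in 𝓝 (t0, a0), g / 2 < dist p.2.1 d.o := by
          apply (c2.dist continuous_const).continuousAt.eventually (lt_mem_nhds _)
          show g / 2 < g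
          linarith
        filter_upwards [e1, e2] with p h1 h2 hp
        have hp0 : (0 : ℝ) < p.1 := lt_of_le_of_ne p.1.2.1 (Ne.symm hp)
        rw [lt_min_iff, lt_min_iff, lt_div_iff₀ (by positivity : (0 : ℝ) < 8 * N)] at h1
        have := d.s_lb hp0 p.2.1
        unfold b
        rw [le_div_iff₀ hp0]
        nlinarith [h1.1, h1.2.1, h1.2.2]
      have hK : ContinuousAt K (t0, a0) := by
        rw [ContinuousAt, Metric.tendsto_nhds]
        intro ε hε
        obtain ⟨D, hD, h4, -⟩ := d.h4 a0.1 (ε / 3) (by positivity)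
        have e2 : ∀ᶠ p : I × {a // a ≠ d.o} in 𝓝 (t0, a0), dist p.2.1 a0.1 < ε / 3 := by
          apply (c2.dist continuous_const).continuousAt.eventually (gt_mem_nhds _)
          simp only [dist_self]; positivity
        filter_upwards [e2, hb (max 1 (3 * D / ε)) (by positivity)] with p h1 h2
        simp only [K, ht, if_true]
        split_ifs with hp
        · simpa using hε
        · have h3 := h2 hp
          rw [max_le_iff] at h3
          set β := d.b p.1 p.2.1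
          have hβ : 0 < β := by linarith [h3.1]
          have t1 := d.h5 (d.sc β⁻¹ p.2.1) d.o 1 1
          have t2 := dist_triangle (d.sc β⁻¹ p.2.1) (d.sc β⁻¹ a0.1) d.o
          have t3 := d.h1 β⁻¹ (inv_pos.2 hβ) p.2.1 a0.1
          rw [max_eq_left (inv_le_one_of_one_le₀ h3.1), one_mul] at t3
          have t4 := h4 β⁻¹ (inv_pos.2 hβ)
          have t5 : β⁻¹ * D ≤ ε / 3 := by
            rw [inv_mul_le_iff₀ hβ]
            have := h3.2
            rw [div_le_iff₀ hε] at this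
            linarith
          simp only [sub_self, abs_zero, add_zero] at t1
          linarith
      have hK0 : K (t0, a0) = d.Ps d.o 1 := by simp only [K, ht, if_true]
      have hLK : ContinuousAt (fun p => L (K p)) (t0, a0) :=
        ContinuousAt.comp (g := L) (hK0 ▸ hLc _ d.h9) hK
      refine hLK.congr ?_
      filter_upwards [hb 1 one_pos] with p hp
      simp only [K, Ht]
      split_ifs with h0
      · exact hL _ d.h9
      · have hβ : 0 < d.b p.1 p.2.1 := lt_of_lt_of_le one_pos (hp h0)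
        rw [← hLsc _ (inv_pos.2 hβ) _ (d.Ps_ne p.2.2 (d.b p.1 p.2.1)), d.h6 _ (inv_pos.2 hβ),
          inv_mul_cancel₀ hβ.ne']
    · have ht0 : (0 : ℝ) < t0 := lt_of_le_of_ne t0.2.1 (Ne.symm ht)
      have hs : ContinuousAt (fun p : I × {a // a ≠ d.o} => d.s p.1 p.2.1) (t0, a0) :=
        ContinuousAt.comp (f := fun p : I × {a // a ≠ d.o} => ((p.1 : ℝ), p.2.1))
          (g := fun p : ℝ × M => d.s p.1 p.2) (d.s_cont ht0 a0.1) (c1.prodMk c2).continuousAt
      have hbc : ContinuousAt (fun p : I × {a // a ≠ d.o} => d.b p.1 p.2.1) (t0, a0) :=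
        (((continuous_const.sub c1).continuousAt).mul hs).div c1.continuousAt ht
      have hP : ContinuousAt (fun p : I × {a // a ≠ d.o} => d.Ps p.2.1 (d.b p.1 p.2.1)) (t0, a0) :=
        ContinuousAt.comp (f := fun p : I × {a // a ≠ d.o} => (p.2.1, d.b p.1 p.2.1))
          (g := fun p : M × ℝ => d.Ps p.1 p.2) d.Ps_cont.continuousAt (c2.continuousAt.prodMk hbc)
      have hLP : ContinuousAt (fun p : I × {a // a ≠ d.o} => L (d.Ps p.2.1 (d.b p.1 p.2.1)))
          (t0, a0) := ContinuousAt.comp (g := L) (hLc _ (d.Ps_ne a0.2 _)) hP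
      refine hLP.congr ?_
      filter_upwards [c1.continuousAt.eventually_ne ht] with p hp
      simp only [Ht, if_neg hp]
  let H : I × Quot r → Quot r := fun p => Quot.lift (Ht p.1) (hinv p.1) p.2
  have hH : Continuous H := isQuotientMap_quot_mk.continuous_lift_prod_right hcont
  rw [contractible_iff_id_nullhomotopic]
  refine ⟨y0, ⟨ContinuousMap.Homotopy.symm ⟨⟨H, hH⟩, ?_, ?_⟩⟩⟩
  · rintro ⟨a⟩
    show Ht 0 a = y0
    simp [Ht]
  · rintro ⟨a⟩
    show Ht 1 a = Quot.mk r a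
    simp only [Ht, Set.Icc.coe_one, one_ne_zero, if_false, b, sub_self, zero_mul, zero_div, d.h7]
    exact hL _ a.2

theorem contr' : ContractibleSpace {a // a ≠ d.o} := by
  classical
  let F : ℝ × M → M := fun p => if p.1 ≤ 0 then d.o else d.sc p.1 p.2
  have hF : Continuous F := by
    rw [Metric.continuous_iff]
    rintro ⟨t, a⟩ ε hε
    obtain ⟨D, hD, h4, h4'⟩ := d.h4 a (ε / 3) (by positivity)
    have hT : 0 < |t| + 2 := by positivity
    refine ⟨min 1 (min (ε / (3 * D)) (ε / (3 * (|t| + 2)))), by positivity, ?_⟩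
    rintro ⟨t', a'⟩ hq
    rw [Prod.dist_eq, max_lt_iff, lt_min_iff, lt_min_iff, lt_min_iff, lt_min_iff, Real.dist_eq] at hq
    obtain ⟨⟨q1, q2, -⟩, -, -, q3⟩ := hq
    simp only at q1 q2 q3
    rw [lt_div_iff₀ (by positivity)] at q2 q3
    have hm : ∀ h : 0 < t', dist (d.sc t' a') (d.sc t' a) ≤ ε / 3 := fun h => by
      have := d.h1 t' h a' a
      have h2 : max 1 t' ≤ |t| + 2 := max_le (by linarith [abs_nonneg t])
        (by linarith [le_abs_self t, (abs_lt.1 q1).2])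
      have h3 := mul_le_mul_of_nonneg_right h2 (dist_nonneg (x := a') (y := a))
      linarith
    simp only [F]
    split_ifs with h1 h2 h2
    · simpa using hε
    · have := h4 t (not_le.1 h2)
      rw [dist_comm]
      nlinarith [neg_le_abs (t' - t)]
    · have := h4 t' (not_le.1 h1)
      have t2 := dist_triangle (d.sc t' a') (d.sc t' a) d.o
      nlinarith [le_abs_self (t' - t), hm (not_le.1 h1)]
    · have := h4' t' t (not_le.1 h1) (not_le.1 h2)
      have t2 := dist_triangle (d.sc t' a') (d.sc t' a) (d.sc t a)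
      nlinarith [hm (not_le.1 h1)]
  have hne : ∀ p : I × {a // a ≠ d.o}, d.Ps (F (p.1, p.2.1)) (1 - p.1) ≠ d.o := by
    intro p
    simp only [F]
    split_ifs with h
    · rw [le_antisymm h p.1.2.1, sub_zero]; exact d.h9
    · exact d.Ps_ne (d.sc_ne (not_le.1 h) p.2.2) _
  have hH : Continuous fun p : I × {a // a ≠ d.o} =>
      (⟨d.Ps (F (p.1, p.2.1)) (1 - p.1), hne p⟩ : {a // a ≠ d.o}) := by
    refine Continuous.subtype_mk ?_ _
    exact d.Ps_cont.comp (f := fun p : I × {a // a ≠ d.o} => (F (p.1, p.2.1), 1 - (p.1 : ℝ)))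
      ((hF.comp (by fun_prop)).prodMk (by fun_prop))
  rw [contractible_iff_id_nullhomotopic]
  refine ⟨⟨d.Ps d.o 1, d.h9⟩, ⟨ContinuousMap.Homotopy.symm ⟨⟨_, hH⟩, ?_, ?_⟩⟩⟩
  · intro a
    apply Subtype.ext
    simp [F]
  · intro a
    apply Subtype.ext
    simp [F, d.h3', d.h7, not_le.2 (zero_lt_one' ℝ)]

end Data
end Pool.Agent.H.MP_3020f5_gt
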