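import Pool.Agent.H.MP_3020f5_gt.Main

namespace Pool.Agent.H.MP_3020f5_gt
open Set Topology Filter MeasureTheory

/-- mm-isomorphism: an isometry of the supports carrying one measure to the other. -/
def Iso (A B : MM) : Prop :=
  ∃ f : A.μ.support ≃ᵢ B.μ.support,
    (A.μ.comap (Subtype.val : A.μ.support → A.X)).map f =
      B.μ.comap (Subtype.val : B.μ.support → B.X)

instance (A : MM) : SecondCountableTopology A.X := UniformSpace.secondCountable_of_separable _

theorem ms (A : MM) : MeasurableSet A.μ.support := Measure.isClosed_support.measurableSet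

theorem map_comap_supp (A : MM) :
    (A.μ.comap (Subtype.val : A.μ.support → A.X)).map Subtype.val = A.μ := by
  rw [map_comap_subtype_coe (ms A)]
  exact Measure.restrict_eq_self_of_ae_mem (s := A.μ.support) Measure.support_mem_ae

instance (A : MM) : IsProbabilityMeasure (A.μ.comap (Subtype.val : A.μ.support → A.X)) := ⟨by
  have := congrArg (fun m : Measure A.X => m univ) (map_comap_supp A)
  simp only [Measure.map_apply measurable_subtype_coe MeasurableSet.univ, preimage_univ,
    measure_univ] at this
  exact this⟩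

theorem Iso.refl (A : MM) : Iso A A := ⟨IsometryEquiv.refl _, Measure.map_id⟩

theorem Iso.symm {A B : MM} (h : Iso A B) : Iso B A := by
  obtain ⟨f, e⟩ := h
  refine ⟨f.symm, ?_⟩
  rw [← e, Measure.map_map f.symm.continuous.measurable f.continuous.measurable,
    show (f.symm ∘ f) = id from funext f.symm_apply_apply, Measure.map_id]

theorem Iso.trans {A B C : MM} (h : Iso A B) (k : Iso B C) : Iso A C := by
  obtain ⟨f, e⟩ := h
  obtain ⟨g, e'⟩ := k
  refine ⟨f.trans g, ?_⟩
  rw [← e', ← e, Measure.map_map g.continuous.measurable f.continuous.measurable]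
  rfl

theorem Iso.box_eq {A B : MM} (h : Iso A B) : box A B = 0 := by
  obtain ⟨f, e⟩ := h
  haveI : StandardBorelSpace A.μ.support := (ms A).standardBorel
  refine le_antisymm (box_le (good_of (A.μ.comap (Subtype.val : A.μ.support → A.X)) Subtype.val
    (Subtype.val ∘ f) measurable_subtype_coe (measurable_subtype_coe.comp f.continuous.measurable)
    (map_comap_supp A) ?_ univ MeasurableSet.univ le_rfl (by simp) fun s _ t _ => ?_))
    (box_nonneg _ _)
  · rw [← Measure.map_map measurable_subtype_coe f.continuous.measurable, e, map_comap_supp]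
  · have : dist (f s).1 (f t).1 = dist s.1 t.1 := f.dist_eq s t
    simp [this]

theorem iso_of (C A : MM) (p : C.X → A.X) (hp : Continuous p) (e : C.μ.map p = A.μ)
    (hd : ∀ z ∈ C.μ.support, ∀ z' ∈ C.μ.support, dist (p z) (p z') = dist z z') : Iso C A := by
  have maps : ∀ z ∈ C.μ.support, p z ∈ A.μ.support := fun z hz => by
    rw [Measure.mem_support_iff_forall] at hz ⊢
    intro U hU
    rw [← e]
    exact (hz _ (hp.continuousAt.preimage_mem_nhds hU)).trans_le
      (Measure.le_map_apply hp.measurable.aemeasurable _)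
  let g : C.μ.support → A.μ.support := fun z => ⟨p z, maps z z.2⟩
  have hg : Isometry g := Isometry.of_dist_eq fun a b => hd a a.2 b b.2
  have hq : Isometry fun z : C.μ.support => p z := Isometry.of_dist_eq fun a b => hd a a.2 b b.2
  haveI : CompleteSpace C.μ.support := Measure.isClosed_support.completeSpace_coe
  have hc := hq.isClosedEmbedding.isClosed_range
  have hsub : A.μ.support ⊆ range fun z : C.μ.support => p z := by
    apply Measure.support_subset_of_isClosed hc
    rw [← e, mem_ae_map_iff hp.measurable.aemeasurable hc.measurableSet]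
    filter_upwards [Measure.support_mem_ae (μ := C.μ)] with z hz
    exact ⟨⟨z, hz⟩, rfl⟩
  have hsurj : Function.Surjective g := fun y => by
    obtain ⟨z, hz⟩ := hsub y.2
    exact ⟨z, Subtype.ext hz⟩
  refine ⟨⟨Equiv.ofBijective g ⟨hg.injective, hsurj⟩, hg⟩, ?_⟩
  apply (MeasurableEmbedding.subtype_coe (ms A)).map_injective
  show ((C.μ.comap (Subtype.val : C.μ.support → C.X)).map g).map Subtype.val = _
  rw [Measure.map_map measurable_subtype_coe hg.continuous.measurable, map_comap_supp]
  show (C.μ.comap (Subtype.val : C.μ.support → C.X)).map (p ∘ Subtype.val) = _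
  rw [← Measure.map_map hp.measurable measurable_subtype_coe, map_comap_supp, e]

theorem exists_coupling {A B : MM} (h : box A B = 0) :
    ∃ P : ProbabilityMeasure (A.X × B.X), (P : Measure (A.X × B.X)).map Prod.fst = A.μ ∧
      (P : Measure (A.X × B.X)).map Prod.snd = B.μ ∧
      ∀ z ∈ (P : Measure (A.X × B.X)).support, ∀ z' ∈ (P : Measure (A.X × B.X)).support,
        dist z.1 z'.1 = dist z.2 z'.2 := by
  have h1 : ∀ n : ℕ, ∃ ε, Good A B ε ∧ ε < 1 / ((n : ℝ) + 1) := fun n =>
    exists_lt_of_csInf_lt ⟨1, good_one A B⟩ (by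
      have : box A B < 1 / ((n : ℝ) + 1) := by rw [h]; positivity
      exact this)
  choose ε hG hε using h1
  choose h0 φ ψ hφ hψ S hS hm hd using hG
  have hmeas : ∀ n, Measurable fun s => (φ n s, ψ n s) := fun n => (hφ n).1.prodMk (hψ n).1
  let π : ℕ → ProbabilityMeasure (A.X × B.X) := fun n =>
    ⟨lam.map fun s => (φ n s, ψ n s), Measure.isProbabilityMeasure_map (hmeas n).aemeasurable⟩
  have π1 : ∀ n, (π n : Measure (A.X × B.X)).map Prod.fst = A.μ := fun n =>
    (Measure.map_map measurable_fst (hmeas n)).trans (hφ n).2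
  have π2 : ∀ n, (π n : Measure (A.X × B.X)).map Prod.snd = B.μ := fun n =>
    (Measure.map_map measurable_snd (hmeas n)).trans (hψ n).2
  have hK : IsCompact (closure (range π)) := by
    apply isCompact_closure_of_isTightMeasureSet
    apply IsTightMeasureSet.prodMk
    · apply (isTightMeasureSet_singleton (μ := A.μ)).subset
      rintro _ ⟨_, ⟨_, ⟨n, rfl⟩, rfl⟩, rfl⟩
      exact π1 n
    · apply (isTightMeasureSet_singleton (μ := B.μ)).subset
      rintro _ ⟨_, ⟨_, ⟨n, rfl⟩, rfl⟩, rfl⟩
      exact π2 n
  let U : Ultrafilter ℕ := Ultrafilter.of atTop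
  have hU : (U : Filter ℕ) ≤ atTop := Ultrafilter.of_le _
  obtain ⟨P, -, hP⟩ := hK.ultrafilter_le_nhds (U.map π) (by
    rw [le_principal_iff]
    exact Filter.mem_map.2 (univ_mem' fun n => subset_closure ⟨n, rfl⟩))
  have hP' : Tendsto π U (𝓝 P) := hP
  have hε0 : ∀ r : ℝ, 0 < r → ∀ᶠ n in (U : Filter ℕ), ε n < r := fun r hr => by
    filter_upwards [hU (tendsto_one_div_add_atTop_nhds_zero_nat.eventually (gt_mem_nhds hr))]
      with n hn
    exact (hε n).trans hn
  refine ⟨P, ?_, ?_, ?_⟩
  · have t1 := ProbabilityMeasure.tendsto_map_of_tendsto_of_continuous π P hP' continuous_fst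
    have t2 : (fun n => (π n).map continuous_fst.measurable.aemeasurable) =
        fun _ => (⟨A.μ, A.pr⟩ : ProbabilityMeasure A.X) := funext fun n => Subtype.ext (π1 n)
    rw [t2] at t1
    have t3 := (tendsto_nhds_unique t1 tendsto_const_nhds).symm
    exact (congrArg Subtype.val t3).symm
  · have t1 := ProbabilityMeasure.tendsto_map_of_tendsto_of_continuous π P hP' continuous_snd
    have t2 : (fun n => (π n).map continuous_snd.measurable.aemeasurable) =
        fun _ => (⟨B.μ, B.pr⟩ : ProbabilityMeasure B.X) := funext fun n => Subtype.ext (π2 n)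
    rw [t2] at t1
    have t3 := (tendsto_nhds_unique t1 tendsto_const_nhds).symm
    exact (congrArg Subtype.val t3).symm
  · have key : ∀ δ : ℝ, 0 < δ → ∀ z ∈ (P : Measure (A.X × B.X)).support,
        ∀ᶠ n in (U : Filter ℕ), ∃ s ∈ S n, dist (φ n s, ψ n s) z < δ := by
      intro δ hδ z hz
      have p0 := (Measure.mem_support_iff_forall z).1 hz _ (Metric.ball_mem_nhds z hδ)
      have p1 := ProbabilityMeasure.le_liminf_measure_open_of_tendsto hP'
        (Metric.isOpen_ball (x := z) (ε := δ))
      obtain ⟨r, r0, r1⟩ := ENNReal.lt_iff_exists_real_btwn.1 (p0.trans_le p1)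
      have r2 : 0 < r := ENNReal.ofReal_pos.1 r1.1
      filter_upwards [eventually_lt_of_lt_liminf r1.2, hε0 r r2] with n k1 k2
      have k3 : r < (π n : Measure (A.X × B.X)).real (Metric.ball z δ) :=
        (ENNReal.ofReal_lt_iff_lt_toReal r0 (measure_ne_top _ _)).1 k1
      have k4 : (π n : Measure (A.X × B.X)).real (Metric.ball z δ) =
          lam.real ((fun s => (φ n s, ψ n s)) ⁻¹' Metric.ball z δ) :=
        map_measureReal_apply (hmeas n) measurableSet_ball
      have k5 := inter_ge lam (S n) (hmeas n (measurableSet_ball (x := z) (ε := δ)))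
      have hne : (S n ∩ (fun s => (φ n s, ψ n s)) ⁻¹' Metric.ball z δ).Nonempty := by
        by_contra hn
        rw [not_nonempty_iff_eq_empty.1 hn, measureReal_empty] at k5
        linarith [hm n]
      obtain ⟨s, s1, s2⟩ := hne
      exact ⟨s, s1, s2⟩
    intro z hz z' hz'
    rw [← sub_eq_zero, ← abs_nonpos_iff]
    refine le_of_forall_pos_le_add fun η hη => ?_
    have hδ : 0 < η / 5 := by positivity
    obtain ⟨n, ⟨s, s1, s2⟩, ⟨t, t1, t2⟩, k⟩ :=
      ((key _ hδ z hz).and ((key _ hδ z' hz').and (hε0 _ hδ))).exists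
    have u := abs_le.1 (hd n s s1 t t1)
    rw [Prod.dist_eq, max_lt_iff] at s2 t2
    have a1 := abs_le.1 (dist_dist_dist_le (φ n s) (φ n t) z.1 z'.1)
    have a2 := abs_le.1 (dist_dist_dist_le (ψ n s) (ψ n t) z.2 z'.2)
    simp only at s2 t2
    rw [abs_le]
    constructor <;> linarith [a1.1, a1.2, a2.1, a2.2, u.1, u.2, s2.1, s2.2, t2.1, t2.2]

theorem iso_of_box {A B : MM} (h : box A B = 0) : Iso A B := by
  obtain ⟨P, h1, h2, h3⟩ := exists_coupling h
  let C : MM := MM.mk (A.X × B.X) (P : Measure (A.X × B.X))
  have i1 : Iso C A := iso_of C A Prod.fst continuous_fst h1 fun z hz z' hz' => by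
    show dist z.1 z'.1 = max (dist z.1 z'.1) (dist z.2 z'.2)
    rw [← h3 z hz z' hz', max_self]
  have i2 : Iso C B := iso_of C B Prod.snd continuous_snd h2 fun z hz z' hz' => by
    show dist z.2 z'.2 = max (dist z.1 z'.1) (dist z.2 z'.2)
    rw [← h3 z hz z' hz', max_self]
  exact i1.symm.trans i2

/-- mm-isomorphism as an equivalence relation. -/
def isoSetoid : Setoid MM := ⟨Iso, Iso.refl, Iso.symm, Iso.trans⟩

/-- The set of mm-isomorphism classes. -/
def XX : Type 1 := Quotient isoSetoid

/-- The class of an mm-space. -/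
def cls (A : MM) : XX := Quotient.mk isoSetoid A

theorem box_congr {A A' B B' : MM} (h : Iso A A') (k : Iso B B') : box A B = box A' B' := by
  have t : ∀ A B C : MM, box A C ≤ box A B + box B C := fun A B C => dist_triangle A B C
  have := h.box_eq
  have := h.symm.box_eq
  have := k.box_eq
  have := k.symm.box_eq
  apply le_antisymm
  · linarith [t A A' B, t A' B' B]
  · linarith [t A' A B', t A B B']

/-- The box distance between classes. -/
noncomputable def boxX : XX → XX → ℝ :=
  Quotient.lift₂ (s₁ := isoSetoid) (s₂ := isoSetoid) box fun _ _ _ _ h k => box_congr h k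

/-- The box metric on the set of classes; its topology is the box topology. -/
noncomputable instance : MetricSpace XX where
  dist := boxX
  dist_self a := Quotient.inductionOn a fun A => (Iso.refl A).box_eq
  dist_comm a b := Quotient.inductionOn₂ a b fun A B => dist_comm A B
  dist_triangle a b c := Quotient.inductionOn₃ a b c fun A B C => dist_triangle A B C
  eq_of_dist_eq_zero {a b} := Quotient.inductionOn₂ a b fun _ _ h => Quotient.sound (iso_of_box h)

theorem cls_surj : Function.Surjective cls := Quotient.mk_surjective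

theorem dist_cls (A B : MM) : dist (cls A) (cls B) = box A B := rfl

end Pool.Agent.H.MP_3020f5_gt
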