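import Mathlib

namespace Pool.Agent.H.MP_3020f5_gt
open Set Topology Filter MeasureTheory ProbabilityTheory unitInterval

/-- An mm-space: complete separable metric space with a Borel probability measure. -/
structure MM where
  X : Type
  [ms : MetricSpace X]
  [cs : CompleteSpace X]
  [sp : TopologicalSpace.SeparableSpace X]
  [me : MeasurableSpace X]
  [bs : BorelSpace X]
  μ : Measure X
  [pr : IsProbabilityMeasure μ]

attribute [instance] MM.ms MM.cs MM.sp MM.me MM.bs MM.pr

/-- The interval `[0,1)`. -/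
abbrev J : Type := Set.Ico (0 : ℝ) 1

/-- Lebesgue measure on `[0,1)`. -/
noncomputable def lam : Measure J := (volume : Measure ℝ).comap Subtype.val

/-- A parameter of `A`. -/
def IsParam (A : MM) (φ : J → A.X) : Prop := Measurable φ ∧ lam.map φ = A.μ

/-- The numbers `ε` over which the infimum in the box distance is taken. -/
def Good (A B : MM) (ε : ℝ) : Prop :=
  0 ≤ ε ∧ ∃ φ ψ, IsParam A φ ∧ IsParam B ψ ∧ ∃ I0 : Set J, MeasurableSet I0 ∧
    1 - ε ≤ lam.real I0 ∧ ∀ s ∈ I0, ∀ t ∈ I0, |dist (φ s) (φ t) - dist (ψ s) (ψ t)| ≤ ε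

/-- The box distance. -/
noncomputable def box (A B : MM) : ℝ := sInf {ε | Good A B ε}

/-- The metric `c * d`, with the same uniformity and topology. -/
@[reducible] noncomputable def scaleMetric {X : Type} (m : MetricSpace X) (c : ℝ) (hc : 0 < c) :
    MetricSpace X where
  dist x y := c * m.dist x y
  dist_self x := by simp
  dist_comm x y := by rw [m.dist_comm]
  dist_triangle x y z := by nlinarith [m.dist_triangle x y z]
  eq_of_dist_eq_zero h := m.eq_of_dist_eq_zero ((mul_eq_zero.1 h).resolve_left hc.ne')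
  toUniformSpace := m.toUniformSpace
  uniformity_dist := by
    rw [m.uniformity_dist]
    apply le_antisymm
    · refine le_iInf₂ fun ε hε => iInf₂_le_of_le (ε / c) (div_pos hε hc) (principal_mono.2 ?_)
      intro p hp
      exact (lt_div_iff₀' hc).1 hp
    · refine le_iInf₂ fun ε hε => iInf₂_le_of_le (c * ε) (mul_pos hc hε) (principal_mono.2 ?_)
      intro p hp
      exact lt_of_mul_lt_mul_left hp hc.le

/-- The scaled space `cA = (A, c d, μ)`. -/
noncomputable def scale (c : ℝ) (hc : 0 < c) (A : MM) : MM :=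
  @MM.mk A.X (scaleMetric A.ms c hc) A.cs A.sp A.me A.bs A.μ A.pr

/-- The one-point mm-space. -/
noncomputable def pt : MM := MM.mk Unit (Measure.dirac ())

instance : IsProbabilityMeasure lam := ⟨by
  rw [lam, Measure.comap_apply _ Subtype.val_injective
    (fun s hs => (MeasurableEmbedding.subtype_coe measurableSet_Ico).measurableSet_image.2 hs) _
    MeasurableSet.univ, Subtype.coe_image_univ, Real.volume_Ico]
  simp⟩

instance : StandardBorelSpace J := measurableSet_Ico.standardBorel

theorem param {W : Type*} [MeasurableSpace W] [StandardBorelSpace W] (P : Measure W)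
    [IsProbabilityMeasure P] : ∃ θ : J → W, Measurable θ ∧ lam.map θ = P := by
  haveI : Nonempty W := nonempty_of_isProbabilityMeasure P
  obtain ⟨f, hf, e⟩ := P.exists_measurable_map_eq
  let i : J → I := fun s => ⟨s.1, s.2.1, s.2.2.le⟩
  have hi : Measurable i := measurable_subtype_coe.subtype_mk
  refine ⟨f ∘ i, hf.comp hi, ?_⟩
  rw [← Measure.map_map hf hi, ← e]
  congr 1
  ext s hs
  rw [Measure.map_apply hi hs, lam, Measure.comap_apply _ Subtype.val_injective
    (fun s hs => (MeasurableEmbedding.subtype_coe measurableSet_Ico).measurableSet_image.2 hs) _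
    (hi hs), unitInterval.volume_apply, ← measure_diff_null (s := Subtype.val '' s) (Real.volume_singleton (a := 1))]
  congr 1
  ext x
  constructor
  · rintro ⟨y, hy, rfl⟩
    exact ⟨⟨i y, hy, rfl⟩, y.2.2.ne⟩
  · rintro ⟨⟨y, hy, rfl⟩, h⟩
    exact ⟨⟨y.1, y.2.1, lt_of_le_of_ne y.2.2 h⟩, hy, rfl⟩

theorem good_of {A B : MM} {W : Type*} [MeasurableSpace W] [StandardBorelSpace W] (P : Measure W)
    [IsProbabilityMeasure P] (φ : W → A.X) (ψ : W → B.X) (hφ : Measurable φ) (hψ : Measurable ψ)
    (e1 : P.map φ = A.μ) (e2 : P.map ψ = B.μ) (S : Set W) (hS : MeasurableSet S) {ε : ℝ}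
    (hε : 0 ≤ ε) (hm : 1 - ε ≤ P.real S)
    (hd : ∀ s ∈ S, ∀ t ∈ S, |dist (φ s) (φ t) - dist (ψ s) (ψ t)| ≤ ε) : Good A B ε := by
  obtain ⟨θ, hθ, e⟩ := param P
  refine ⟨hε, φ ∘ θ, ψ ∘ θ, ⟨hφ.comp hθ, by rw [← Measure.map_map hφ hθ, e, e1]⟩,
    ⟨hψ.comp hθ, by rw [← Measure.map_map hψ hθ, e, e2]⟩, θ ⁻¹' S, hθ hS, ?_,
    fun s hs t ht => hd _ hs _ ht⟩
  rw [← e, map_measureReal_apply hθ hS] at hm
  exact hm

theorem good_one (A B : MM) : Good A B 1 :=
  good_of (A.μ.prod B.μ) Prod.fst Prod.snd measurable_fst measurable_snd (by simp) (by simp) ∅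
    MeasurableSet.empty zero_le_one (by simp) (by simp)

theorem box_le {A B : MM} {ε : ℝ} (h : Good A B ε) : box A B ≤ ε :=
  csInf_le ⟨0, fun _ h => h.1⟩ h

theorem le_box {A B : MM} {x : ℝ} (h : ∀ ε, Good A B ε → x ≤ ε) : x ≤ box A B :=
  le_csInf ⟨1, good_one A B⟩ h

theorem box_nonneg (A B : MM) : 0 ≤ box A B := le_box fun _ h => h.1

theorem box_zero {A B : MM} (f : A.X → B.X) (hf : Measurable f) (e : A.μ.map f = B.μ)
    (hd : ∀ x y, dist x y = dist (f x) (f y)) : box A B = 0 :=
  le_antisymm (box_le (good_of A.μ id f measurable_id hf Measure.map_id e univ MeasurableSet.univ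
    le_rfl (by simp) (fun s _ t _ => by simp [hd]))) (box_nonneg _ _)

theorem Good.symm {A B : MM} {ε : ℝ} (h : Good A B ε) : Good B A ε := by
  obtain ⟨h0, φ, ψ, h1, h2, S, h3, h4, h5⟩ := h
  exact ⟨h0, ψ, φ, h2, h1, S, h3, h4, fun s hs t ht => by rw [abs_sub_comm]; exact h5 s hs t ht⟩

theorem inter_ge {W : Type*} [MeasurableSpace W] (P : Measure W) [IsProbabilityMeasure P]
    (s : Set W) {t : Set W} (ht : MeasurableSet t) : P.real s + P.real t - 1 ≤ P.real (s ∩ t) := by
  have h1 := measureReal_union_add_inter (μ := P) (s := s) ht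
  have h2 : P.real (s ∪ t) ≤ 1 := measureReal_le_one
  linarith

theorem cond {B : MM} {ψ : J → B.X} (h : IsParam B ψ) :
    (condDistrib id ψ lam ∘ₘ B.μ = lam) ∧ ∀ᵐ y ∂B.μ, ∀ᵐ s ∂(condDistrib id ψ lam y), ψ s = y := by
  constructor
  · rw [← h.2, condDistrib_comp_map h.1.aemeasurable measurable_id.aemeasurable, Measure.map_id]
  · apply Measure.ae_ae_of_ae_compProd (p := fun p : B.X × J => ψ p.2 = p.1)
    rw [← h.2, compProd_map_condDistrib measurable_id.aemeasurable, ae_map_iff]
    · exact Eventually.of_forall fun _ => rfl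
    · exact (h.1.prodMk measurable_id).aemeasurable
    · exact measurableSet_eq_fun (h.1.comp measurable_snd) measurable_fst

theorem Good.trans {A B C : MM} {ε η : ℝ} (h : Good A B ε) (h' : Good B C η) : Good A C (ε + η) := by
  obtain ⟨h0, φ, ψ, h1, h2, S, h3, h4, h5⟩ := h
  obtain ⟨k0, ψ', χ, k1, k2, T, k3, k4, k5⟩ := h'
  obtain ⟨a1, a2⟩ := cond h2
  obtain ⟨b1, b2⟩ := cond k1
  let γ : Measure (J × J) := (condDistrib id ψ lam ×ₖ condDistrib id ψ' lam) ∘ₘ B.μ
  have g1 : γ.map Prod.fst = lam := by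
    rw [Measure.map_comp _ _ measurable_fst, ← Kernel.fst_eq, Kernel.fst_prod, a1]
  have g2 : γ.map Prod.snd = lam := by
    rw [Measure.map_comp _ _ measurable_snd, ← Kernel.snd_eq, Kernel.snd_prod, b1]
  have hE : MeasurableSet {p : J × J | ψ p.1 = ψ' p.2} :=
    measurableSet_eq_fun (h2.1.comp measurable_fst) (k1.1.comp measurable_snd)
  have g3 : ∀ᵐ p ∂γ, ψ p.1 = ψ' p.2 := by
    apply Measure.ae_comp_of_ae_ae hE
    filter_upwards [a2, b2] with y ha hb
    rw [Kernel.prod_apply]
    filter_upwards [Measure.quasiMeasurePreserving_fst.ae ha,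
      Measure.quasiMeasurePreserving_snd.ae hb] with p p1 p2
    rw [p1, p2]
  refine good_of γ (φ ∘ Prod.fst) (χ ∘ Prod.snd) (h1.1.comp measurable_fst)
    (k2.1.comp measurable_snd) (by rw [← Measure.map_map h1.1 measurable_fst, g1, h1.2])
    (by rw [← Measure.map_map k2.1 measurable_snd, g2, k2.2])
    ((Prod.fst ⁻¹' S ∩ Prod.snd ⁻¹' T) ∩ {p : J × J | ψ p.1 = ψ' p.2})
    (((measurable_fst h3).inter (measurable_snd k3)).inter hE) (add_nonneg h0 k0) ?_ ?_
  · have i1 := inter_ge γ (Prod.fst ⁻¹' S ∩ Prod.snd ⁻¹' T) hE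
    have i2 := inter_ge γ (Prod.fst ⁻¹' S) (measurable_snd k3)
    have i3 : γ.real {p : J × J | ψ p.1 = ψ' p.2} = 1 := by
      rw [measureReal_def, (prob_compl_eq_zero_iff hE).1 g3]; simp
    rw [← g1, map_measureReal_apply measurable_fst h3] at h4
    rw [← g2, map_measureReal_apply measurable_snd k3] at k4
    linarith
  · rintro s ⟨⟨s1, s2⟩, s3⟩ t ⟨⟨t1, t2⟩, t3⟩
    have u1 := abs_le.1 (h5 _ s1 _ t1)
    have u2 := abs_le.1 (k5 _ s2 _ t2)
    have s3' : ψ s.1 = ψ' s.2 := s3
    have t3' : ψ t.1 = ψ' t.2 := t3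
    rw [s3', t3'] at u1
    simp only [Function.comp, abs_le]
    constructor <;> linarith [u1.1, u1.2, u2.1, u2.2]

/-- The box distance as a pseudometric on mm-spaces. -/
noncomputable instance : PseudoMetricSpace MM where
  dist := box
  dist_self A := box_zero id measurable_id Measure.map_id fun _ _ => rfl
  dist_comm _ _ := le_antisymm (le_box fun _ h => box_le h.symm) (le_box fun _ h => box_le h.symm)
  dist_triangle A B C := by
    have : box A C - box B C ≤ box A B := le_box fun ε h => by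
      have : box A C - ε ≤ box B C := le_box fun η h' => by linarith [box_le (h.trans h')]
      linarith
    linarith

theorem dist_scale (c : ℝ) (hc : 0 < c) (A : MM) (x y : A.X) :
    @dist (scale c hc A).X _ x y = c * dist x y := rfl

theorem box_scale (c : ℝ) (hc : 0 < c) (A B : MM) :
    box (scale c hc A) (scale c hc B) ≤ max 1 c * box A B := by
  have hm : 0 < max 1 c := lt_max_of_lt_left one_pos
  rw [← div_le_iff₀' hm]
  refine le_box fun ε h => ?_
  rw [div_le_iff₀' hm]
  obtain ⟨h0, φ, ψ, h1, h2, S, h3, h4, h5⟩ := h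
  refine box_le ⟨by positivity, φ, ψ, h1, h2, S, h3, ?_, fun s hs t ht => ?_⟩
  · nlinarith [le_max_left 1 c]
  · rw [dist_scale, dist_scale, ← mul_sub, abs_mul, abs_of_pos hc]
    exact mul_le_mul (le_max_right _ _) (h5 s hs t ht) (abs_nonneg _) hm.le

noncomputable def nu (b : ℝ) : Measure ℝ := (volume : Measure I).map fun u : I => b * (u : ℝ)

theorem mb (b : ℝ) : Measurable fun u : I => b * (u : ℝ) := by fun_prop

instance (b : ℝ) : IsProbabilityMeasure (nu b) := Measure.isProbabilityMeasure_map (mb b).aemeasurable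

noncomputable def Psi (A : MM) (b : ℝ) : MM := MM.mk (A.X × ℝ) (A.μ.prod (nu b))

theorem dist_Psi (A : MM) (b : ℝ) (x y : A.X × ℝ) :
    @dist (Psi A b).X _ x y = max (dist x.1 y.1) |x.2 - y.2| := rfl

theorem box_Psi (A B : MM) (b b' : ℝ) : box (Psi A b) (Psi B b') ≤ box A B + |b - b'| := by
  rw [← sub_le_iff_le_add]
  refine le_box fun ε h => ?_
  rw [sub_le_iff_le_add]
  obtain ⟨h0, φ, ψ, h1, h2, S, h3, h4, h5⟩ := h
  refine box_le (good_of (A := Psi A b) (B := Psi B b') (lam.prod (volume : Measure I))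
    (Prod.map φ fun u => b * (u : ℝ)) (Prod.map ψ fun u => b' * (u : ℝ)) (h1.1.prodMap (mb b))
    (h2.1.prodMap (mb b')) ?_ ?_ (Prod.fst ⁻¹' S) (measurable_fst h3) (by positivity) ?_ ?_)
  · exact (Measure.map_prod_map lam (volume : Measure I) h1.1 (mb b)).symm.trans
      (by rw [h1.2]; rfl)
  · exact (Measure.map_prod_map lam (volume : Measure I) h2.1 (mb b')).symm.trans
      (by rw [h2.2]; rfl)
  · rw [← map_measureReal_apply measurable_fst h3, Measure.map_fst_prod, measure_univ, one_smul]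
    linarith [abs_nonneg (b - b')]
  · intro s hs t ht
    rw [dist_Psi, dist_Psi]
    refine (abs_max_sub_max_le_max _ _ _ _).trans (max_le ?_ ?_)
    · linarith [h5 _ hs _ ht, abs_nonneg (b - b'), show |dist (Prod.map φ (fun u : I => b * (u : ℝ)) s).1
        (Prod.map φ (fun u : I => b * (u : ℝ)) t).1 - dist (Prod.map ψ (fun u : I => b' * (u : ℝ)) s).1
        (Prod.map ψ (fun u : I => b' * (u : ℝ)) t).1| = |dist (φ s.1) (φ t.1) - dist (ψ s.1) (ψ t.1)|
        from rfl]
    · refine (abs_abs_sub_abs_le_abs_sub _ _).trans ?_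
      simp only [Prod.map]
      rw [show b * (s.2 : ℝ) - b * t.2 - (b' * s.2 - b' * t.2) = (b - b') * (s.2 - t.2) by ring,
        abs_mul]
      have : |(s.2 : ℝ) - t.2| ≤ 1 := by
        rw [abs_le]; constructor <;> linarith [s.2.2.1, s.2.2.2, t.2.2.1, t.2.2.2]
      nlinarith [abs_nonneg (b - b')]

theorem dist_pt (x y : pt.X) : dist x y = 0 := dist_self x

theorem box_Psi_pt (A : MM) (b : ℝ) : box A pt ≤ box (Psi A b) pt := by
  refine le_box fun ε h => ?_
  obtain ⟨h0, φ, ψ, h1, h2, S, h3, h4, h5⟩ := h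
  refine box_le ⟨h0, fun s => (φ s).1, ψ, ⟨measurable_fst.comp h1.1, ?_⟩, h2, S, h3, h4,
    fun s hs t ht => ?_⟩
  · have := Measure.map_map (μ := lam) (g := (Prod.fst : A.X × ℝ → A.X)) measurable_fst h1.1
    refine Eq.trans this.symm
      ((congrArg (Measure.map (Prod.fst : A.X × ℝ → A.X)) h1.2).trans ?_)
    show (A.μ.prod (nu b)).map Prod.fst = _
    simp
  · have := h5 s hs t ht
    rw [dist_pt, sub_zero, abs_of_nonneg dist_nonneg] at this ⊢
    exact (le_max_left _ _).trans this

theorem box_Psi_one : 1 / 4 ≤ box (Psi pt 1) pt := by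
  refine le_box fun ε h => ?_
  by_contra hε
  rw [not_le] at hε
  obtain ⟨h0, φ, ψ, h1, h2, S, h3, h4, h5⟩ := h
  have hβ : Measurable fun s => (φ s).2 := measurable_snd.comp h1.1
  have e : lam.map (fun s => (φ s).2) = nu 1 := by
    have := Measure.map_map (μ := lam) (g := (Prod.snd : pt.X × ℝ → ℝ)) measurable_snd h1.1
    refine Eq.trans this.symm
      ((congrArg (Measure.map (Prod.snd : pt.X × ℝ → ℝ)) h1.2).trans ?_)
    show (pt.μ.prod (nu 1)).map Prod.snd = _
    simp
  have key : ∀ U : Set ℝ, MeasurableSet U → (nu 1).real U = 1 / 4 → ∃ s ∈ S, (φ s).2 ∈ U := by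
    intro U hU hm
    rw [← e, map_measureReal_apply hβ hU] at hm
    have := inter_ge lam S (hβ hU)
    have hne : (S ∩ (fun s => (φ s).2) ⁻¹' U).Nonempty := by
      by_contra hn
      rw [not_nonempty_iff_eq_empty.1 hn, measureReal_empty] at this
      linarith
    obtain ⟨s, h1, h2⟩ := hne
    exact ⟨s, h1, h2⟩
  obtain ⟨s, hs, hs'⟩ := key (Iic (1 / 4)) measurableSet_Iic (by
    rw [nu, map_measureReal_apply (mb 1) measurableSet_Iic]
    have : (fun u : I => 1 * (u : ℝ)) ⁻¹' Iic (1 / 4) = Iic ⟨1 / 4, by norm_num, by norm_num⟩ := by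
      ext u; simp only [mem_preimage, one_mul, mem_Iic]; rfl
    rw [this, measureReal_def, unitInterval.volume_Iic]; simp)
  obtain ⟨t, ht, ht'⟩ := key (Ici (3 / 4)) measurableSet_Ici (by
    rw [nu, map_measureReal_apply (mb 1) measurableSet_Ici]
    have : (fun u : I => 1 * (u : ℝ)) ⁻¹' Ici (3 / 4) = Ici ⟨3 / 4, by norm_num, by norm_num⟩ := by
      ext u; simp only [mem_preimage, one_mul, mem_Ici]; rfl
    rw [this, measureReal_def, unitInterval.volume_Ici, ENNReal.toReal_ofReal] <;> norm_num)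
  have := h5 s hs t ht
  rw [dist_pt, sub_zero, abs_of_nonneg dist_nonneg, dist_Psi] at this
  have h6 := (abs_le.1 ((le_max_right _ _).trans this)).1
  simp only [mem_Iic, mem_Ici] at hs' ht'
  linarith

theorem box_tight (A : MM) (ε : ℝ) (hε : 0 < ε) : ∃ D, 0 < D ∧
    (∀ c (hc : 0 < c), box (scale c hc A) pt ≤ ε + c * D) ∧
    ∀ c c' (hc : 0 < c) (hc' : 0 < c'), box (scale c hc A) (scale c' hc' A) ≤ ε + |c - c'| * D := by
  obtain ⟨x0⟩ : Nonempty A.X := nonempty_of_isProbabilityMeasure A.μ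
  have h1 : Tendsto (fun n : ℕ => A.μ (Metric.closedBall x0 n)) atTop (𝓝 1) := by
    have := tendsto_measure_iUnion_atTop (μ := A.μ) (s := fun n : ℕ => Metric.closedBall x0 n)
      (fun m n h => Metric.closedBall_subset_closedBall (by exact_mod_cast h))
    rwa [Metric.iUnion_closedBall_nat, measure_univ] at this
  have h2 := (ENNReal.tendsto_toReal ENNReal.one_ne_top).comp h1
  obtain ⟨n, hn⟩ := (h2.eventually (lt_mem_nhds (show 1 - ε < (1 : ENNReal).toReal by
    simp [hε]))).exists
  have hd : ∀ s ∈ Metric.closedBall x0 n, ∀ t ∈ Metric.closedBall x0 (n : ℝ),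
      dist s t ≤ 2 * n + 1 := fun s hs t ht => by
    linarith [dist_triangle_right s t x0, Metric.mem_closedBall.1 hs, Metric.mem_closedBall.1 ht]
  have hn' : 1 - ε ≤ A.μ.real (Metric.closedBall x0 n) := hn.le
  refine ⟨2 * n + 1, by positivity, fun c hc => ?_, fun c c' hc hc' => ?_⟩
  · refine box_le (good_of (A := scale c hc A) (B := pt) A.μ id (fun _ => ()) measurable_id
      measurable_const Measure.map_id (by rw [Measure.map_const, measure_univ, one_smul]; rfl) _
      (measurableSet_closedBall (x := x0) (ε := n)) (by positivity) ?_ fun s hs t ht => ?_)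
    · nlinarith [mul_pos hc (show (0 : ℝ) < 2 * n + 1 by positivity)]
    · rw [dist_pt, sub_zero, abs_of_nonneg dist_nonneg]
      show c * @dist A.X _ s t ≤ _
      nlinarith [mul_le_mul_of_nonneg_left (hd s hs t ht) hc.le]
  · refine box_le (good_of (A := scale c hc A) (B := scale c' hc' A) A.μ id id measurable_id
      measurable_id Measure.map_id Measure.map_id _
      (measurableSet_closedBall (x := x0) (ε := n)) (by positivity) ?_ fun s hs t ht => ?_)
    · nlinarith [mul_nonneg (abs_nonneg (c - c')) (show (0 : ℝ) ≤ 2 * n + 1 by positivity)]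
    · show |c * @dist A.X _ s t - c' * @dist A.X _ s t| ≤ _
      rw [← sub_mul, abs_mul, abs_of_nonneg dist_nonneg]
      nlinarith [mul_le_mul_of_nonneg_left (hd s hs t ht) (abs_nonneg (c - c'))]

theorem z2 (c : ℝ) (hc : 0 < c) : box (scale c hc pt) pt = 0 :=
  box_zero (A := scale c hc pt) (B := pt) id measurable_id Measure.map_id fun x y => by
    show c * @dist pt.X _ x y = @dist pt.X _ x y
    rw [dist_pt, mul_zero]

theorem z3 (c c' : ℝ) (hc : 0 < c) (hc' : 0 < c') (A : MM) :
    box (scale c hc (scale c' hc' A)) (scale (c * c') (mul_pos hc hc') A) = 0 :=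
  box_zero (A := scale c hc (scale c' hc' A)) (B := scale (c * c') (mul_pos hc hc') A) id
    measurable_id Measure.map_id fun x y => by
      show c * (c' * @dist A.X _ x y) = c * c' * @dist A.X _ x y
      ring

theorem z3' (A : MM) : box (scale 1 one_pos A) A = 0 :=
  box_zero (A := scale 1 one_pos A) (B := A) id measurable_id Measure.map_id fun x y => by
    show 1 * @dist A.X _ x y = @dist A.X _ x y
    ring

theorem z6 (c : ℝ) (hc : 0 < c) (A : MM) (b : ℝ) :
    box (scale c hc (Psi A b)) (Psi (scale c hc A) (c * b)) = 0 := by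
  have hm : Measurable fun u : ℝ => c * u := by fun_prop
  refine box_zero (A := scale c hc (Psi A b)) (B := Psi (scale c hc A) (c * b))
    (Prod.map id fun u : ℝ => c * u) (measurable_id.prodMap hm) ?_ fun x y => ?_
  · show (A.μ.prod (nu b)).map (Prod.map id fun u : ℝ => c * u) = A.μ.prod (nu (c * b))
    rw [← Measure.map_prod_map _ _ measurable_id hm, Measure.map_id, nu, Measure.map_map hm (mb b), nu]
    congr 2
    funext u; simp [mul_assoc]
  · show c * max (@dist A.X _ x.1 y.1) |x.2 - y.2| = max (c * @dist A.X _ x.1 y.1) |c * x.2 - c * y.2|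
    rw [← mul_sub, abs_mul, abs_of_pos hc, mul_max_of_nonneg _ _ hc.le]

theorem z7 (A : MM) : box A (Psi A 0) = 0 := by
  refine box_zero (A := A) (B := Psi A 0) (fun x => (x, 0)) measurable_prodMk_right ?_ fun x y => ?_
  · show _ = A.μ.prod (nu 0)
    have : nu 0 = Measure.dirac 0 := by simp [nu, Measure.map_const]
    rw [this, Measure.prod_dirac]
    rfl
  · rw [dist_Psi]; simp

end Pool.Agent.H.MP_3020f5_gt
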