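import Pool.Agent.H.MP_3020f5_gt.Abs
import Pool.Agent.H.MP_3020f5_gt.MM

namespace Pool.Agent.H.MP_3020f5_gt
open Set Topology Filter MeasureTheory

section Gen
variable {M : Type*} [MetricSpace M] (mk : MM → M) (hs : Function.Surjective mk)
  (hd : ∀ A B, dist (mk A) (mk B) = box A B)

noncomputable def rep (a : M) : MM := (hs a).choose

theorem mk_rep (a : M) : mk (rep mk hs a) = a := (hs a).choose_spec

open Classical in
noncomputable def scM (c : ℝ) (a : M) : M := if h : 0 < c then mk (scale c h (rep mk hs a)) else a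

noncomputable def PsM (a : M) (b : ℝ) : M := mk (Psi (rep mk hs a) b)

include hd in
theorem eq_of_box {A B : MM} (h : box A B = 0) : mk A = mk B := by
  rw [← dist_eq_zero, hd, h]

include hd in
theorem scM_mk (c : ℝ) (hc : 0 < c) (A : MM) : scM mk hs c (mk A) = mk (scale c hc A) := by
  rw [scM, dif_pos hc]
  apply eq_of_box mk hd
  refine le_antisymm ((box_scale _ _ _ _).trans ?_) (box_nonneg _ _)
  rw [← hd, mk_rep mk hs, dist_self, mul_zero]

include hd in
theorem PsM_mk (A : MM) (b : ℝ) : PsM mk hs (mk A) b = mk (Psi A b) := by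
  rw [PsM]
  apply eq_of_box mk hd
  refine le_antisymm ((box_Psi _ _ _ _).trans ?_) (box_nonneg _ _)
  rw [← hd, mk_rep mk hs, dist_self]; simp

noncomputable def data : Data M where
  o := mk pt
  sc := scM mk hs
  Ps := PsM mk hs
  h1 c hc a a' := by
    obtain ⟨A, rfl⟩ := hs a
    obtain ⟨B, rfl⟩ := hs a'
    rw [scM_mk mk hs hd c hc, scM_mk mk hs hd c hc, hd, hd]
    exact box_scale _ _ _ _
  h2 c hc := by
    rw [scM_mk mk hs hd c hc]; exact eq_of_box mk hd (z2 c hc)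
  h3 c c' hc hc' a := by
    obtain ⟨A, rfl⟩ := hs a
    rw [scM_mk mk hs hd c' hc', scM_mk mk hs hd c hc, scM_mk mk hs hd _ (mul_pos hc hc')]
    exact eq_of_box mk hd (z3 c c' hc hc' A)
  h3' a := by
    obtain ⟨A, rfl⟩ := hs a
    rw [scM_mk mk hs hd 1 one_pos]
    exact eq_of_box mk hd (z3' A)
  h4 a ε hε := by
    obtain ⟨A, rfl⟩ := hs a
    obtain ⟨D, hD, k1, k2⟩ := box_tight A ε hε
    refine ⟨D, hD, fun c hc => ?_, fun c c' hc hc' => ?_⟩
    · rw [scM_mk mk hs hd c hc, hd]; exact k1 c hc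
    · rw [scM_mk mk hs hd c hc, scM_mk mk hs hd c' hc', hd]; exact k2 c c' hc hc'
  h5 a a' b b' := by
    obtain ⟨A, rfl⟩ := hs a
    obtain ⟨B, rfl⟩ := hs a'
    rw [PsM_mk mk hs hd, PsM_mk mk hs hd, hd, hd]
    exact box_Psi _ _ _ _
  h6 c hc a b := by
    obtain ⟨A, rfl⟩ := hs a
    rw [PsM_mk mk hs hd, scM_mk mk hs hd c hc, scM_mk mk hs hd c hc, PsM_mk mk hs hd]
    exact eq_of_box mk hd (z6 c hc A b)
  h7 a := by
    obtain ⟨A, rfl⟩ := hs a
    rw [PsM_mk mk hs hd]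
    exact (eq_of_box mk hd (z7 A)).symm
  h8 a b := by
    obtain ⟨A, rfl⟩ := hs a
    rw [PsM_mk mk hs hd, hd, hd]
    exact box_Psi_pt A b
  h9 := by
    rw [PsM_mk mk hs hd]
    intro h
    have := box_Psi_one
    rw [← hd, h, dist_self] at this
    norm_num at this

include hs hd in
theorem gen_punct : ContractibleSpace {a : M // a ≠ mk pt} := (data mk hs hd).contr'

include hs hd in
theorem gen_quot : ContractibleSpace (Quot fun a b : {a : M // a ≠ mk pt} =>
    ∃ (A : MM) (c : ℝ) (hc : 0 < c), a.1 = mk A ∧ b.1 = mk (scale c hc A)) := by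
  refine (data mk hs hd).contr _ fun a a' => ⟨?_, ?_⟩
  · rintro ⟨A, c, hc, h1, h2⟩
    refine ⟨c, hc, ?_⟩
    rw [h2]
    show _ = scM mk hs c a.1
    rw [h1, scM_mk mk hs hd c hc]
  · rintro ⟨c, hc, h⟩
    obtain ⟨A, hA⟩ := hs a.1
    refine ⟨A, c, hc, hA.symm, ?_⟩
    rw [h, ← hA]
    exact scM_mk mk hs hd c hc A

end Gen

end Pool.Agent.H.MP_3020f5_gt
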